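import Mathlib
import Pool.Agent.R239.Fat.T19

set_option autoImplicit false

open Polynomial Filter Topology

namespace Pool.Agent.Results.MP_8f2e1c_an.BoundaryNeighbourhoods

/-- `f` is the self-map of the Riemann sphere given by the rational function `P / Q` of degree `d`,
in lowest terms. -/
def IsRational (d : ℕ) (P Q : Polynomial ℂ) (f : OnePoint ℂ → OnePoint ℂ) : Prop :=
  IsCoprime P Q ∧ max P.natDegree Q.natDegree = d ∧ Continuous f ∧
    ∀ z : ℂ, Q.eval z ≠ 0 → f (OnePoint.some z) = OnePoint.some (P.eval z / Q.eval z)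

/-- Every critical point has an orbit converging to an attracting periodic cycle. This is word for
word the condition of the frozen statement `S05373`. -/
def Hyperbolic (f : OnePoint ℂ → OnePoint ℂ) : Prop :=
  ∀ c : OnePoint ℂ, (¬ ∃ U ∈ nhds c, Set.InjOn f U) →
    ∃ z : OnePoint ℂ, ∃ n : ℕ, 0 < n ∧ f^[n] z = z ∧
      (∃ U ∈ nhds z, ∀ w ∈ U,
        Filter.Tendsto (fun k : ℕ => f^[n * k] w) Filter.atTop (nhds z)) ∧
      Filter.Tendsto (fun k : ℕ => f^[n * k] c) Filter.atTop (nhds z)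

/-- The coefficients of `P'` and `Q'` are `ε`-close to those of `P` and `Q`. -/
def Near (ε : ℝ) (P Q P' Q' : Polynomial ℂ) : Prop :=
  ∀ i, ‖P'.coeff i - P.coeff i‖ < ε ∧ ‖Q'.coeff i - Q.coeff i‖ < ε

/-- `a` is an attracting periodic point of `g` whose period divides `n`: `g^n` fixes `a` and the
iterates of `g^n` converge to `a` uniformly on a neighbourhood of `a`. -/
def IsSink (g : OnePoint ℂ → OnePoint ℂ) (n : ℕ) (a : OnePoint ℂ) : Prop :=
  0 < n ∧ g^[n] a = a ∧
    ∃ U ∈ nhds a, ∀ V ∈ nhds a, ∀ᶠ k : ℕ in atTop, ∀ w ∈ U, g^[n * k] w ∈ V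

/-- The orbit of `z` under `g` converges to a cycle in `A`: `g^(nk) z` converges to a point of `A` as
`k → ∞`, for some `n ≥ 1`. -/
def AttractedBy (g : OnePoint ℂ → OnePoint ℂ) (A : Set (OnePoint ℂ)) (z : OnePoint ℂ) : Prop :=
  ∃ a ∈ A, ∃ n : ℕ, 0 < n ∧ Tendsto (fun k : ℕ => g^[n * k] z) atTop (nhds a)

/-- `g` is hyperbolic with the attracting periodic points `A`: `A` is a finite union of attracting
cycles, and all the critical points of `g` and the points of a dense set are attracted by `A`.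
(If `g` is a hyperbolic rational map of degree at least two then the set `A` of all its attracting
periodic points has these properties.) -/
structure HyperbolicWith (g : OnePoint ℂ → OnePoint ℂ) (A : Set (OnePoint ℂ)) : Prop where
  finite : A.Finite
  maps : ∀ a ∈ A, g a ∈ A
  sink : ∀ a ∈ A, ∃ n, IsSink g n a
  crit : ∀ c, (¬ ∃ U ∈ nhds c, Set.InjOn g U) → AttractedBy g A c
  dense : Dense {z | AttractedBy g A z}

/-- The pair `(R, S)` is a limit of hyperbolic rational maps of degree `d`. -/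
def HyperbolicLimit (d : ℕ) (R S : Polynomial ℂ) : Prop :=
  ∀ ε : ℝ, 0 < ε → ∃ (R' S' : Polynomial ℂ) (g : OnePoint ℂ → OnePoint ℂ) (A : Set (OnePoint ℂ)),
    IsRational d R' S' g ∧ HyperbolicWith g A ∧ Near ε R S R' S'

/-- All rational maps of degree `D` close to the pair `(P₀, Q₀)` are hyperbolic. -/
def AllNearHyperbolic (D : ℕ) (P₀ Q₀ : Polynomial ℂ) : Prop :=
  ∃ δ : ℝ, 0 < δ ∧ ∀ (P Q : Polynomial ℂ) (f : OnePoint ℂ → OnePoint ℂ),
    IsRational D P Q f → Near δ P₀ Q₀ P Q → Hyperbolic f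

/-- Arbitrarily close to the pair `(P, Q)` there are pairs `(P₀, Q₀)` of polynomials of degree at
most `D` with a common factor of degree `m` such that all rational maps of degree `D` close to
`(P₀, Q₀)` are hyperbolic, and arbitrarily close to `(P, Q)` there are hyperbolic rational maps of
degree `D`. -/
def BoundaryDensity (D m : ℕ) (P Q : Polynomial ℂ) : Prop :=
  ∀ ε : ℝ, 0 < ε →
    (∃ P₀ Q₀ K : Polynomial ℂ, P₀.natDegree ≤ D ∧ Q₀.natDegree ≤ D ∧ K.natDegree = m ∧ K ∣ P₀ ∧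
      K ∣ Q₀ ∧ Near ε P Q P₀ Q₀ ∧ AllNearHyperbolic D P₀ Q₀) ∧
    ∃ (P' Q' : Polynomial ℂ) (f : OnePoint ℂ → OnePoint ℂ),
      IsRational D P' Q' f ∧ Near ε P Q P' Q' ∧ Hyperbolic f

open Pool.Agent.R239.Fat in
theorem ind_unique {D : ℕ} (hD : 1 ≤ D) {P Q : Polynomial ℂ} {f g : OnePoint ℂ → OnePoint ℂ}
    (hf : IsRational D P Q f) (hg : Ind P Q g) : f = g := by
  obtain ⟨x, -, -, -, h⟩ := (Pool.Agent.H790R3.RB.PQ Pool.Agent.H790R3.RB.SP D hD).2 P Q hf.1 hf.2.1
  rw [h f hf.2.2.1 hf.2.2.2, h g hg.1 hg.2]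

open Pool.Agent.R239.Fat in
theorem density_of {D m : ℕ} (hD : 1 ≤ D) {P Q : Polynomial ℂ}
    (h : ∀ ε : ℝ, 0 < ε → ∃ P₀ Q₀ : ℂ[X], P₀.natDegree ≤ D ∧ Q₀.natDegree ≤ D ∧
      (∀ i, ‖P₀.coeff i - P.coeff i‖ < ε ∧ ‖Q₀.coeff i - Q.coeff i‖ < ε) ∧
      (∃ K : ℂ[X], K.natDegree = m ∧ K ∣ P₀ ∧ K ∣ Q₀) ∧ GoodPt D P₀ Q₀) :
    BoundaryDensity D m P Q := by
  intro ε hε
  obtain ⟨P₀, Q₀, h1, h2, h3, ⟨K, hK1, hK2, hK3⟩, h5⟩ := h (ε / 2) (half_pos hε)
  obtain ⟨δ, hδ, h5⟩ := h5
  refine ⟨⟨P₀, Q₀, K, h1, h2, hK1, hK2, hK3, fun i => ⟨(h3 i).1.trans (by linarith),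
    (h3 i).2.trans (by linarith)⟩, δ, hδ, fun P Q f hf hn => ?_⟩, ?_⟩
  · obtain ⟨g, hg, hg2⟩ := h5 P Q hf.1 hf.2.1 hn
    rw [ind_unique hD hf hg]
    exact hg2
  · obtain ⟨P', Q', h6, h7, h8⟩ := coprime_near hD h1 h2 (lt_min hδ (half_pos hε))
    obtain ⟨g, hg, hg2⟩ := h5 P' Q' h6 h7 fun i => ⟨(h8 i).1.trans_le (min_le_left _ _),
      (h8 i).2.trans_le (min_le_left _ _)⟩
    refine ⟨P', Q', g, ⟨h6, h7, hg.1, hg.2⟩, fun i => ⟨?_, ?_⟩, hg2⟩
    · have e1 : P'.coeff i - P.coeff i = (P'.coeff i - P₀.coeff i) + (P₀.coeff i - P.coeff i) := by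
        ring
      rw [e1]
      have := norm_add_le (P'.coeff i - P₀.coeff i) (P₀.coeff i - P.coeff i)
      have := (h8 i).1.trans_le (min_le_right _ _)
      have := (h3 i).1
      linarith
    · have e1 : Q'.coeff i - Q.coeff i = (Q'.coeff i - Q₀.coeff i) + (Q₀.coeff i - Q.coeff i) := by
        ring
      rw [e1]
      have := norm_add_le (Q'.coeff i - Q₀.coeff i) (Q₀.coeff i - Q.coeff i)
      have := (h8 i).2.trans_le (min_le_right _ _)
      have := (h3 i).2
      linarith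

open Pool.Agent.R239.Fat in
/-- Density of hyperbolicity at the boundary of the space of rational maps of degree `D`, that is,
at the pairs of polynomials of degree at most `D` which do not define a rational map of degree `D`.

(1) Let `D = m + d`, let `H` be a polynomial of degree at most `m` and let the pair `(R, S)` be a
limit of hyperbolic rational maps of degree `d ≥ 1`. Then the pair `(H * R, H * S)` is a limit of
boundary pairs `(P₀, Q₀)`, with a common factor of degree `m`, which have a full neighbourhood in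
which all rational maps of degree `D` are hyperbolic. In particular `(H * R, H * S)` is a limit of
hyperbolic rational maps of degree `D`.

(2) The same is true for `D = m + 1` and all `R`, `S` of degree at most one.

(3) The same is true for `D = 2`, `m = 1` and all boundary pairs. -/
theorem result :
    (∀ (d m : ℕ) (H R S : Polynomial ℂ), 1 ≤ d → H.natDegree ≤ m → HyperbolicLimit d R S →
      BoundaryDensity (m + d) m (H * R) (H * S)) ∧
    (∀ (m : ℕ) (H R S : Polynomial ℂ), H.natDegree ≤ m → R.natDegree ≤ 1 → S.natDegree ≤ 1 →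
      BoundaryDensity (m + 1) m (H * R) (H * S)) ∧
    (∀ P Q : Polynomial ℂ, P.natDegree ≤ 2 → Q.natDegree ≤ 2 →
      ¬ (IsCoprime P Q ∧ max P.natDegree Q.natDegree = 2) → BoundaryDensity 2 1 P Q) := by
  have h2 : ∀ (m : ℕ) (H R S : Polynomial ℂ), H.natDegree ≤ m → R.natDegree ≤ 1 →
      S.natDegree ≤ 1 → BoundaryDensity (m + 1) m (H * R) (H * S) := by
    intro m H R S hH hR hS
    refine density_of (by omega) fun ε hε => ?_
    have h3 := boundary_lin (R.coeff 1) (R.coeff 0) (S.coeff 1) (S.coeff 0) hH hε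
    rw [← eq_X_add_C_of_natDegree_le_one hR, ← eq_X_add_C_of_natDegree_le_one hS] at h3
    exact h3
  refine ⟨fun d m H R S hd hH hlim => ?_, h2, fun P Q hP hQ hPQ => ?_⟩
  · refine density_of (by omega) fun ε hε => ?_
    set T : ℝ := ∑ j ∈ H.support, ‖H.coeff j‖ with hT
    have hT0 : 0 ≤ T := Finset.sum_nonneg fun _ _ => norm_nonneg _
    have hη0 : 0 < ε / (2 * (T + 1)) := by positivity
    have hηT : ε / (2 * (T + 1)) * T < ε / 2 := by
      rw [div_mul_eq_mul_div, div_lt_iff₀ (by positivity)]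
      nlinarith
    obtain ⟨R', S', g, A, hg, hA, hnear⟩ := hlim _ hη0
    obtain ⟨y, hy, rfl, rfl, h5⟩ := (Pool.Agent.H790R3.RB.PQ Pool.Agent.H790R3.RB.SP d hd).2 R' S'
      hg.1 hg.2.1
    have hgy := h5 g hg.2.2.1 hg.2.2.2
    subst hgy
    obtain ⟨P₀, Q₀, h6, h7, h8, h9, h10⟩ := boundary_gen (y := y) (A := A) hd
      ⟨hy, hA.finite, hA.maps, hA.sink, hA.crit, hA.dense⟩ hH (half_pos hε)
    have key : ∀ (R₀ L L' : ℂ[X]) (j : ℕ), (∀ j, ‖L.coeff j - L'.coeff j‖ ≤ ε / (2 * (T + 1))) →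
        ‖R₀.coeff j - (H * L).coeff j‖ < ε / 2 → ‖R₀.coeff j - (H * L').coeff j‖ < ε := by
      intro R₀ L L' j hL hR
      have h11 := mul_close (P := H) hL hη0.le j
      rw [mul_comm L, mul_comm L'] at h11
      have h12 : R₀.coeff j - (H * L').coeff j = (R₀.coeff j - (H * L).coeff j) +
          ((H * L).coeff j - (H * L').coeff j) := by ring
      rw [h12]
      refine (norm_add_le _ _).trans_lt ?_
      linarith
    exact ⟨P₀, Q₀, h6, h7, fun i => ⟨key _ _ _ i (fun j => (hnear j).1.le) (h8 i).1,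
      key _ _ _ i (fun j => (hnear j).2.le) (h8 i).2⟩, h9, h10⟩
  · obtain ⟨H, a, b, c, e, hH, rfl, rfl⟩ := boundary_two hP hQ hPQ
    exact h2 1 H _ _ hH (lin_natDegree a b) (lin_natDegree c e)

end Pool.Agent.Results.MP_8f2e1c_an.BoundaryNeighbourhoods
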