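import Mathlib
import Pool.Agent.R239.Fat.T12

set_option autoImplicit false

open Polynomial MeasureTheory Filter Topology

namespace Pool.Agent.Results.MP_8f2e1c_an.HighIterateWords

/-- `f` is the self-map of the Riemann sphere given by the rational function `P / Q` of degree `d`,
in lowest terms. -/
def IsRational (d : ℕ) (P Q : Polynomial ℂ) (f : OnePoint ℂ → OnePoint ℂ) : Prop :=
  IsCoprime P Q ∧ max P.natDegree Q.natDegree = d ∧ Continuous f ∧
    ∀ z : ℂ, Q.eval z ≠ 0 → f (OnePoint.some z) = OnePoint.some (P.eval z / Q.eval z)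

/-- `c` is a critical point of `f`: `f` is not locally injective at `c`. -/
def Critical (f : OnePoint ℂ → OnePoint ℂ) (c : OnePoint ℂ) : Prop :=
  ¬ ∃ U ∈ nhds c, Set.InjOn f U

/-- Every critical point has an orbit converging to an attracting periodic cycle. This is word for
word the condition of the frozen statement `S05373`. -/
def Hyperbolic (f : OnePoint ℂ → OnePoint ℂ) : Prop :=
  ∀ c : OnePoint ℂ, (¬ ∃ U ∈ nhds c, Set.InjOn f U) →
    ∃ z : OnePoint ℂ, ∃ n : ℕ, 0 < n ∧ f^[n] z = z ∧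
      (∃ U ∈ nhds z, ∀ w ∈ U,
        Filter.Tendsto (fun k : ℕ => f^[n * k] w) Filter.atTop (nhds z)) ∧
      Filter.Tendsto (fun k : ℕ => f^[n * k] c) Filter.atTop (nhds z)

/-- `a` is an attracting periodic point of `g` whose period divides `n`: `g^n` fixes `a` and the
iterates of `g^n` converge to `a` uniformly on a neighbourhood of `a`. -/
def IsSink (g : OnePoint ℂ → OnePoint ℂ) (n : ℕ) (a : OnePoint ℂ) : Prop :=
  0 < n ∧ g^[n] a = a ∧
    ∃ U ∈ nhds a, ∀ V ∈ nhds a, ∀ᶠ k : ℕ in atTop, ∀ w ∈ U, g^[n * k] w ∈ V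

/-- The orbit of `z` under `g` converges to a cycle in `A`: `g^(nk) z` converges to a point of `A` as
`k → ∞`, for some `n ≥ 1`. -/
def AttractedBy (g : OnePoint ℂ → OnePoint ℂ) (A : Set (OnePoint ℂ)) (z : OnePoint ℂ) : Prop :=
  ∃ a ∈ A, ∃ n : ℕ, 0 < n ∧ Tendsto (fun k : ℕ => g^[n * k] z) atTop (nhds a)

/-- `g` is hyperbolic with the attracting periodic points `A`: `A` is a finite union of attracting
cycles, and all the critical points of `g` and the points of a dense set are attracted by `A`.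
(If `g` is a hyperbolic rational map of degree at least two then the set `A` of all its attracting
periodic points has these properties.) -/
structure HyperbolicWith (g : OnePoint ℂ → OnePoint ℂ) (A : Set (OnePoint ℂ)) : Prop where
  finite : A.Finite
  maps : ∀ a ∈ A, g a ∈ A
  sink : ∀ a ∈ A, ∃ n, IsSink g n a
  crit : ∀ c, Critical g c → AttractedBy g A c
  dense : Dense {z | AttractedBy g A z}

/-- The Moebius map `z ↦ (a z + b) / (c z + e)` with the matrix `N = ((a, b), (c, e))`. -/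
noncomputable def moebius (N : (ℂ × ℂ) × (ℂ × ℂ)) : OnePoint ℂ → OnePoint ℂ
  | none => if N.2.1 = 0 then OnePoint.infty else OnePoint.some (N.1.1 / N.2.1)
  | some z => if N.2.1 * z + N.2.2 = 0 then OnePoint.infty
      else OnePoint.some ((N.1.1 * z + N.1.2) / (N.2.1 * z + N.2.2))

/-- The determinant of the matrix. -/
def det (N : (ℂ × ℂ) × (ℂ × ℂ)) : ℂ := N.1.1 * N.2.2 - N.1.2 * N.2.1

/-- The map `f i₁ ∘ g^(n₁) ∘ ⋯ ∘ f iₖ ∘ g^(nₖ)` given by the list of the pairs `(i, n)`. -/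
def word {ι : Type} (f : ι → OnePoint ℂ → OnePoint ℂ) (g : OnePoint ℂ → OnePoint ℂ) :
    List (ι × ℕ) → OnePoint ℂ → OnePoint ℂ
  | [] => id
  | (i, n) :: w => f i ∘ g^[n] ∘ word f g w

/-- All compositions of the maps `f i ∘ g^n` with `n ≥ n₀` are hyperbolic. -/
def AllHyperbolic {ι : Type} (f : ι → OnePoint ℂ → OnePoint ℂ) (g : OnePoint ℂ → OnePoint ℂ)
    (n₀ : ℕ) : Prop :=
  ∀ w : List (ι × ℕ), w ≠ [] → (∀ p ∈ w, n₀ ≤ p.2) → Hyperbolic (word f g w)

/-- The marked values: the critical values of the `f i`, the values of the `f i` on the forward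
orbits of the critical points of `g`, and the values of the `f i` on `A`. -/
def Marked {ι : Type} (f : ι → OnePoint ℂ → OnePoint ℂ) (g : OnePoint ℂ → OnePoint ℂ)
    (A : Set (OnePoint ℂ)) : Set (OnePoint ℂ) :=
  {m | ∃ i, (∃ y, Critical (f i) y ∧ m = f i y) ∨
    (∃ c, ∃ k : ℕ, Critical g c ∧ m = f i (g^[k + 1] c)) ∨ ∃ a ∈ A, m = f i a}

open Pool.Agent.R239.Fat in
theorem moebius_eq {N : (ℂ × ℂ) × (ℂ × ℂ)} (h : det N ≠ 0) :
    moebius N = mob N.1.1 N.1.2 N.2.1 N.2.2 := by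
  have h' : N.1.1 * N.2.2 - N.1.2 * N.2.1 ≠ 0 := h
  funext x
  induction x using OnePoint.rec with
  | infty =>
    rw [mob_inf h']
    rfl
  | coe z =>
    show (if N.2.1 * z + N.2.2 = 0 then OnePoint.infty
      else OnePoint.some ((N.1.1 * z + N.1.2) / (N.2.1 * z + N.2.2))) = _
    split_ifs with h1
    · rw [mob_coe_inf h' h1]
    · rw [mob_coe h' h1]

open Pool.Agent.R239.Fat in
theorem comp_word {ι : Type} (f : ι → OnePoint ℂ → OnePoint ℂ) (g : OnePoint ℂ → OnePoint ℂ)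
    (n₀ : ℕ) (w : List (ι × ℕ)) (hw : ∀ p ∈ w, n₀ ≤ p.2) :
    Comp (Blk f g n₀) w.length (word f g w) := by
  induction w with
  | nil => exact Comp.zero
  | cons p w ih =>
    have h1 := ih fun q hq => hw q (List.mem_cons_of_mem _ hq)
    have h2 : Comp (Blk f g n₀) (w.length + 1) ((f p.1 ∘ g^[p.2]) ∘ word f g w) :=
      Comp.succ h1 ⟨p.1, p.2, hw p List.mem_cons_self, rfl⟩
    exact h2

open Pool.Agent.R239.Fat in
/-- Compositions with high iterates of a hyperbolic map. Let `g` be a rational map of degree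
`d ≥ 2`, hyperbolic with the attracting points `A`, and let `f 1, …, f s` be rational maps of
degrees `D i ≥ 1`.

(1) If all marked values are attracted by `A` under `g`, then for some `n₀` all maps of the semigroup
generated by the `f i ∘ g^n`, `n ≥ n₀`, are hyperbolic.

(2) For all matrices `N` outside a meagre set: `N` is invertible, and for some `n₀` all maps of the
semigroup generated by the `M ∘ f i ∘ g^n`, `n ≥ n₀`, `M = moebius N`, are hyperbolic.

(3) The same is true for Lebesgue almost all matrices `N`, if the set of the points of the plane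
which are not attracted by `A` has zero area.

(4) For every `ε > 0` there is `n₀` such that the conclusion of the density conjecture holds with
this `ε` for all maps `f i ∘ g^n`, `n ≥ n₀`: these are rational maps of degree `D i * d ^ n`, and if
such a map is given by `P / Q` in lowest terms, with coefficients of modulus at most one, then there
are `P' / Q'` in lowest terms of the same degree, with coefficients `ε`-close to those of `P / Q`,
which are hyperbolic. -/
theorem result {s : ℕ} (D : Fin s → ℕ) (hD : ∀ i, 1 ≤ D i) (P Q : Fin s → Polynomial ℂ)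
    (f : Fin s → OnePoint ℂ → OnePoint ℂ) (hf : ∀ i, IsRational (D i) (P i) (Q i) (f i))
    (d : ℕ) (hd : 2 ≤ d) (R S : Polynomial ℂ) (g : OnePoint ℂ → OnePoint ℂ)
    (hg : IsRational d R S g) (A : Set (OnePoint ℂ)) (hA : HyperbolicWith g A) :
    ((∀ m ∈ Marked f g A, AttractedBy g A m) → ∃ n₀ : ℕ, AllHyperbolic f g n₀) ∧
    (∀ᶠ N in residual ((ℂ × ℂ) × (ℂ × ℂ)), det N ≠ 0 ∧
      ∃ n₀ : ℕ, AllHyperbolic (fun i => moebius N ∘ f i) g n₀) ∧
    (volume {z : ℂ | ¬ AttractedBy g A (OnePoint.some z)} = 0 →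
      ∀ᵐ N : (ℂ × ℂ) × (ℂ × ℂ), det N ≠ 0 ∧
        ∃ n₀ : ℕ, AllHyperbolic (fun i => moebius N ∘ f i) g n₀) ∧
    (∀ ε : ℝ, 0 < ε → ∃ n₀ : ℕ, ∀ n : ℕ, n₀ ≤ n → ∀ i,
      (∃ P Q : Polynomial ℂ, IsRational (D i * d ^ n) P Q (f i ∘ g^[n])) ∧
      ∀ P Q : Polynomial ℂ, IsRational (D i * d ^ n) P Q (f i ∘ g^[n]) →
        (∀ j, ‖P.coeff j‖ ≤ 1 ∧ ‖Q.coeff j‖ ≤ 1) →
        ∃ (P' Q' : Polynomial ℂ) (f' : OnePoint ℂ → OnePoint ℂ), IsRational (D i * d ^ n) P' Q' f' ∧
          (∀ j, ‖P'.coeff j - P.coeff j‖ < ε ∧ ‖Q'.coeff j - Q.coeff j‖ < ε) ∧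
          Hyperbolic f') := by
  have hx : ∀ i, ∃ x : Pool.Agent.H790R3.RB.CV (D i), Pool.Agent.H790R3.RB.ND x ∧
      f i = Pool.Agent.H790R3.RB.sp x := by
    intro i
    obtain ⟨h1, h2, h3, h4⟩ := hf i
    obtain ⟨x, hx, -, -, h5⟩ := (Pool.Agent.H790R3.RB.PQ Pool.Agent.H790R3.RB.SP (D i)
      (hD i)).2 (P i) (Q i) h1 h2
    exact ⟨x, hx, h5 _ h3 h4⟩
  obtain ⟨y, hy, hgy⟩ : ∃ y : Pool.Agent.H790R3.RB.CV d, Pool.Agent.H790R3.RB.ND y ∧
      g = Pool.Agent.H790R3.RB.sp y := by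
    obtain ⟨h1, h2, h3, h4⟩ := hg
    obtain ⟨x, hx, -, -, h5⟩ := (Pool.Agent.H790R3.RB.PQ Pool.Agent.H790R3.RB.SP d
      (by omega)).2 R S h1 h2
    exact ⟨x, hx, h5 _ h3 h4⟩
  choose x hx hfx using hx
  have hfH : ∀ i, Hol (f i) := fun i => by rw [hfx i]; exact hol_sp (hD i) (hx i)
  have hgH : Hol g := by rw [hgy]; exact hol_sp (by omega) hy
  have hall : ∀ (F : Fin s → OnePoint ℂ → OnePoint ℂ) (n₀ : ℕ),
      (∀ k : ℕ, k ≠ 0 → ∀ G, Comp (Blk F g n₀) k G → Hyp G) → AllHyperbolic F g n₀ := by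
    intro F n₀ h w hw hp
    exact h w.length (fun h0 => hw (List.length_eq_zero_iff.1 h0)) _ (comp_word F g n₀ w hp)
  have hBo : IsOpen {z | AttBy g A z} := attBy_open hgH.cont hA.finite hA.maps hA.sink
  have hcount : (Mk f g A).Countable := mk_countable hgH hA.finite hfH
  have hgen : ∀ N : (ℂ × ℂ) × (ℂ × ℂ), N.1.1 * N.2.2 - N.1.2 * N.2.1 ≠ 0 →
      (∀ m ∈ Mk f g A, lin (Pool.Agent.H790R3.RB.hc m) N ∈ Cone {z | AttBy g A z}) →
      ∃ n₀ : ℕ, AllHyperbolic (fun i => moebius N ∘ f i) g n₀ := by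
    intro N hN hm
    obtain ⟨n₀, h⟩ := hyp_of_mk (f := f) hgH hA.finite hA.maps hA.sink hfH hA.crit hN fun m hmk => by
      have h1 := cone_pr (hm m hmk)
      rw [mob_lin hN]
      exact h1
    refine ⟨n₀, ?_⟩
    rw [moebius_eq hN]
    exact hall _ n₀ h
  have hres : ∀ᶠ N in residual ((ℂ × ℂ) × (ℂ × ℂ)), det N ≠ 0 ∧
      ∃ n₀ : ℕ, AllHyperbolic (fun i => moebius N ∘ f i) g n₀ := by
    have hBd : Dense {z : ℂ | (z : OnePoint ℂ) ∈ {z | AttBy g A z}} :=
      Dense.preimage hA.dense OnePoint.isOpenEmbedding_coe.isOpenMap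
    filter_upwards [generic_res hBo hBd hcount] with N hN
    exact ⟨hN.1, hgen N hN.1 hN.2⟩
  refine ⟨fun hm => ?_, hres, fun h0 => ?_, fun ε hε => ?_⟩
  · have h1 : (1 : ℂ) * 1 - 0 * 0 ≠ 0 := by norm_num
    obtain ⟨n₀, h⟩ := hyp_of_mk (f := f) hgH hA.finite hA.maps hA.sink hfH hA.crit h1 fun m hmk => by
      rw [mob_one]
      exact hm m hmk
    refine ⟨n₀, hall _ n₀ ?_⟩
    have h2 : (fun i => mob 1 0 0 1 ∘ f i) = f := by
      funext i z
      exact mob_one _
    rw [h2] at h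
    exact h
  · filter_upwards [generic_ae hBo h0 hcount] with N hN
    exact ⟨hN.1, hgen N hN.1 hN.2⟩
  · have hdense := dense_of_mem_residual hres
    rw [Metric.dense_iff] at hdense
    obtain ⟨N, hN, hdet, n₀, hn₀⟩ := hdense ((1, 0), (0, 1)) (ε / 2) (by positivity)
    have hdet' : N.1.1 * N.2.2 - N.1.2 * N.2.1 ≠ 0 := hdet
    rw [Metric.mem_ball, Prod.dist_eq, max_lt_iff, Prod.dist_eq, max_lt_iff, Prod.dist_eq,
      max_lt_iff] at hN
    obtain ⟨⟨ha, hb⟩, hc, he⟩ := hN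
    simp only [dist_eq_norm, sub_zero] at ha hb hc he
    refine ⟨n₀, fun n hn i => ⟨?_, ?_⟩⟩
    · obtain ⟨z, hz, hz2⟩ := sp_iter hy n
      obtain ⟨w, hw⟩ := exists_comp (x i) z
      obtain ⟨h1, h2⟩ := sp_comp (hx i) hz hw
      have hpos : 1 ≤ D i * d ^ n := Nat.mul_pos (hD i) (pow_pos (by omega) n)
      obtain ⟨h3, h4⟩ := Pool.Agent.H790R3.RB.PQ.part1 hpos w h1
      rw [hz2, ← hgy, ← hfx i] at h2
      refine ⟨_, _, h3, h4, ?_, fun t ht => ?_⟩
      · rw [← h2]; exact Pool.Agent.H790R3.RB.SP.sp_cont h1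
      · rw [← h2]; exact Pool.Agent.H790R3.RB.PQ.sp_eval w t ht
    · rintro P Q ⟨h1, h2, h3, h4⟩ hco
      have hpos : 1 ≤ D i * d ^ n := Nat.mul_pos (hD i) (pow_pos (by omega) n)
      obtain ⟨w, hw, rfl, rfl, h5⟩ := (Pool.Agent.H790R3.RB.PQ Pool.Agent.H790R3.RB.SP _
        hpos).2 P Q h1 h2
      have h6 := h5 _ h3 h4
      have hhyp := hn₀ [(i, n)] (List.cons_ne_nil _ _) (by
        intro p hp
        rw [List.mem_singleton] at hp
        rw [hp]
        exact hn)
      have h7 : word (fun i => moebius N ∘ f i) g [(i, n)] =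
          mob N.1.1 N.1.2 N.2.1 N.2.2 ∘ Pool.Agent.H790R3.RB.sp w := by
        rw [← h6, ← moebius_eq hdet]
        rfl
      rw [h7] at hhyp
      refine ⟨C N.1.1 * Pool.Agent.H790R3.RB.pol w 0 + C N.1.2 * Pool.Agent.H790R3.RB.pol w 1,
        C N.2.1 * Pool.Agent.H790R3.RB.pol w 0 + C N.2.2 * Pool.Agent.H790R3.RB.pol w 1, _,
        ⟨coprime_comb' h1 hdet', degree_comb' hpos h2 hdet',
          (mob_cont hdet').comp (Pool.Agent.H790R3.RB.SP.sp_cont hw),
          fun z hz => mob_sp' hw hdet' hz⟩, fun j => ⟨?_, ?_⟩, hhyp⟩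
      · have e1 : (C N.1.1 * Pool.Agent.H790R3.RB.pol w 0 +
            C N.1.2 * Pool.Agent.H790R3.RB.pol w 1).coeff j -
            (Pool.Agent.H790R3.RB.pol w 0).coeff j =
            (N.1.1 - 1) * (Pool.Agent.H790R3.RB.pol w 0).coeff j +
              N.1.2 * (Pool.Agent.H790R3.RB.pol w 1).coeff j := by
          rw [coeff_add, coeff_C_mul, coeff_C_mul]; ring
        rw [e1]
        have h8 := norm_add_le ((N.1.1 - 1) * (Pool.Agent.H790R3.RB.pol w 0).coeff j)
          (N.1.2 * (Pool.Agent.H790R3.RB.pol w 1).coeff j)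
        rw [norm_mul, norm_mul] at h8
        have h9 := mul_le_mul_of_nonneg_left (hco j).1 (norm_nonneg (N.1.1 - 1))
        have h10 := mul_le_mul_of_nonneg_left (hco j).2 (norm_nonneg N.1.2)
        linarith
      · have e1 : (C N.2.1 * Pool.Agent.H790R3.RB.pol w 0 +
            C N.2.2 * Pool.Agent.H790R3.RB.pol w 1).coeff j -
            (Pool.Agent.H790R3.RB.pol w 1).coeff j =
            N.2.1 * (Pool.Agent.H790R3.RB.pol w 0).coeff j +
              (N.2.2 - 1) * (Pool.Agent.H790R3.RB.pol w 1).coeff j := by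
          rw [coeff_add, coeff_C_mul, coeff_C_mul]; ring
        rw [e1]
        have h8 := norm_add_le (N.2.1 * (Pool.Agent.H790R3.RB.pol w 0).coeff j)
          ((N.2.2 - 1) * (Pool.Agent.H790R3.RB.pol w 1).coeff j)
        rw [norm_mul, norm_mul] at h8
        have h9 := mul_le_mul_of_nonneg_left (hco j).1 (norm_nonneg N.2.1)
        have h10 := mul_le_mul_of_nonneg_left (hco j).2 (norm_nonneg (N.2.2 - 1))
        linarith

end Pool.Agent.Results.MP_8f2e1c_an.HighIterateWords
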