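import Pool.Agent.R241.RC13

/-!
# Density of hyperbolicity for sequences of rational maps

Points of the Riemann sphere are given by homogeneous coordinates `p : V` (nonzero vectors of `ℂ²`),
`D` is the chordal distance, a rational map `P/Q` of degree `d` is given by the coefficients
`w : Coef d` of `P` and `Q`, and `lift w` is the map in homogeneous coordinates. The rational map
`act M w` is the composition of the Möbius map of the matrix `M` with `w`.

For every compact set `𝒦` of rational maps of degree `d ≥ 2` and every `ε > 0` there are constants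
such that every sequence in `𝒦` becomes hyperbolic, with these constants, after composition with
suitable Möbius maps `M k` which are `ε`-close to the identity.
-/

set_option autoImplicit false

namespace Pool.Agent.Results.MP_8f2e1c_an.NonAutonomousRational

open Pool.Agent.R241.RC

theorem result {d : ℕ} (hd : 2 ≤ d) {𝒦 : Set (Coef d)} (h𝒦 : IsCompact 𝒦)
    (hrat : ∀ w ∈ 𝒦, IsRational w) {ε : ℝ} (hε : 0 < ε) :
    ∃ δ C θ : ℝ, 0 < δ ∧ 0 < C ∧ 0 < θ ∧ θ < 1 ∧
      ∀ w : ℕ → Coef d, (∀ k, w k ∈ 𝒦) →
        ∃ M : ℕ → Matrix (Fin 2) (Fin 2) ℂ,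
          (∀ k, (M k).det ≠ 0 ∧
            ∀ i j, ‖M k i j - (1 : Matrix (Fin 2) (Fin 2) ℂ) i j‖ < ε) ∧
          (∀ k, IsRational (act (M k) (w k))) ∧
          Hyperbolic (fun k => act (M k) (w k)) δ C θ :=
  final hd h𝒦 hrat hε

end Pool.Agent.Results.MP_8f2e1c_an.NonAutonomousRational
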