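import Mathlib
import Pool.Agent.R239.Fat.T9

set_option autoImplicit false

open Polynomial

namespace Pool.Agent.Results.MP_8f2e1c_an.PeriodicPerturbations

/-- `f` is the self-map of the Riemann sphere given by `P / Q`, as in the frozen statement
`S05373`. -/
def Induces (P Q : Polynomial ℂ) (f : OnePoint ℂ → OnePoint ℂ) : Prop :=
  Continuous f ∧ ∀ z : ℂ, Q.eval z ≠ 0 →
    f (OnePoint.some z) = OnePoint.some (P.eval z / Q.eval z)

/-- Every critical point (point of the Riemann sphere where the map is not locally injective) has an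
orbit converging to an attracting periodic cycle. This is word for word the condition of the frozen
statement `S05373`. -/
def Hyperbolic (f : OnePoint ℂ → OnePoint ℂ) : Prop :=
  ∀ c : OnePoint ℂ, (¬ ∃ U ∈ nhds c, Set.InjOn f U) →
    ∃ z : OnePoint ℂ, ∃ n : ℕ, 0 < n ∧ f^[n] z = z ∧
      (∃ U ∈ nhds z, ∀ w ∈ U,
        Filter.Tendsto (fun k : ℕ => f^[n * k] w) Filter.atTop (nhds z)) ∧
      Filter.Tendsto (fun k : ℕ => f^[n * k] c) Filter.atTop (nhds z)

/-- The composition `f (N - 1) ∘ ⋯ ∘ f 1 ∘ f 0`. -/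
def composition (f : ℕ → OnePoint ℂ → OnePoint ℂ) : ℕ → OnePoint ℂ → OnePoint ℂ
  | 0 => id
  | N + 1 => f N ∘ composition f N

/-- The four numbers form a matrix of determinant one which is `ε`-close to the identity matrix. -/
def NearIdentity (ε : ℝ) (a b c e : ℂ) : Prop :=
  a * e - b * c = 1 ∧ ‖a - 1‖ < ε ∧ ‖b‖ < ε ∧ ‖c‖ < ε ∧ ‖e - 1‖ < ε

/-- Density of hyperbolicity for periodic perturbations. Let `P / Q` be a rational map of degree
`d ≥ 2` and `ε > 0`. Then there is `N₀` such that for all `N ≥ N₀` there are `N` perturbations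
`f k = (a k P + b k Q) / (c k P + e k Q)` of `P / Q`, `0 ≤ k < N`, of the same degree `d`, in lowest
terms and `ε`-close to `P / Q` coefficient by coefficient (their matrices are `ε`-close
to the identity matrix too), such that the composition `f (N - 1) ∘ ⋯ ∘ f 0` is hyperbolic. -/
theorem result :
    ∀ d : ℕ, 2 ≤ d → ∀ P Q : Polynomial ℂ, IsCoprime P Q → max P.natDegree Q.natDegree = d →
      ∀ ε : ℝ, 0 < ε → ∃ N₀ : ℕ, ∀ N : ℕ, N₀ ≤ N →
        ∃ (a b c e : ℕ → ℂ) (f : ℕ → OnePoint ℂ → OnePoint ℂ),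
          (∀ k < N, NearIdentity ε (a k) (b k) (c k) (e k) ∧
            IsCoprime (C (a k) * P + C (b k) * Q) (C (c k) * P + C (e k) * Q) ∧
            max (C (a k) * P + C (b k) * Q).natDegree (C (c k) * P + C (e k) * Q).natDegree = d ∧
            (∀ i : ℕ, ‖(C (a k) * P + C (b k) * Q).coeff i - P.coeff i‖ < ε ∧
              ‖(C (c k) * P + C (e k) * Q).coeff i - Q.coeff i‖ < ε) ∧
            Induces (C (a k) * P + C (b k) * Q) (C (c k) * P + C (e k) * Q) (f k)) ∧
          Hyperbolic (composition f N) := by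
  intro d hd P Q hPQ hdeg ε hε
  obtain ⟨x, hx, rfl, rfl, -⟩ := (Pool.Agent.H790R3.RB.PQ Pool.Agent.H790R3.RB.SP d
    (by omega)).2 P Q hPQ hdeg
  obtain ⟨M, hM0, hM⟩ := Pool.Agent.R239.Fat.coeff_bound
    (Pool.Agent.H790R3.RB.pol x 0) (Pool.Agent.H790R3.RB.pol x 1)
  set P := Pool.Agent.H790R3.RB.pol x 0 with hP
  set Q := Pool.Agent.H790R3.RB.pol x 1 with hQ
  set η : ℝ := ε / (2 * M + 1) with hη
  have hη0 : 0 < η := by positivity
  have hηε : η * (2 * M) + η = ε := by
    rw [hη]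
    field_simp
  have hηε' : η ≤ ε := by nlinarith
  obtain ⟨N₀, h⟩ := Pool.Agent.R239.Fat.main hd hx hη0
  refine ⟨N₀, fun N hN => ?_⟩
  obtain ⟨G, hG, hGH⟩ := h N hN
  obtain ⟨m, hm, rfl⟩ := hG.seq
  have hm' : ∀ k, ∃ a b c e : ℂ, k < N → a * e - b * c = 1 ∧ ‖a - 1‖ < η ∧ ‖b‖ < η ∧ ‖c‖ < η ∧
      ‖e - 1‖ < η ∧ m k = Pool.Agent.R239.Fat.mob a b c e ∘ Pool.Agent.H790R3.RB.sp x := by
    intro k
    by_cases hk : k < N
    · obtain ⟨a, b, c, e, h⟩ := hm k hk
      exact ⟨a, b, c, e, fun _ => h⟩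
    · exact ⟨0, 0, 0, 0, fun h => absurd h hk⟩
  choose a b c e habce using hm'
  refine ⟨a, b, c, e, m, fun k hk => ?_, ?_⟩
  · obtain ⟨h1, h2, h3, h4, h5, h6⟩ := habce k hk
    refine ⟨⟨h1, by linarith, by linarith, by linarith, by linarith⟩,
      Pool.Agent.R239.Fat.coprime_comb hPQ h1,
      Pool.Agent.R239.Fat.degree_comb (by omega) hdeg h1, fun i => ⟨?_, ?_⟩, ?_, ?_⟩
    · have e1 : (C (a k) * P + C (b k) * Q).coeff i - P.coeff i =
          (a k - 1) * P.coeff i + b k * Q.coeff i := by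
        rw [coeff_add, coeff_C_mul, coeff_C_mul]; ring
      rw [e1]
      have h7 := norm_add_le ((a k - 1) * P.coeff i) (b k * Q.coeff i)
      rw [norm_mul, norm_mul] at h7
      have h8 : ‖a k - 1‖ * ‖P.coeff i‖ ≤ η * M :=
        mul_le_mul h2.le (hM i).1 (norm_nonneg _) hη0.le
      have h9 : ‖b k‖ * ‖Q.coeff i‖ ≤ η * M :=
        mul_le_mul h3.le (hM i).2 (norm_nonneg _) hη0.le
      linarith
    · have e1 : (C (c k) * P + C (e k) * Q).coeff i - Q.coeff i =
          c k * P.coeff i + (e k - 1) * Q.coeff i := by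
        rw [coeff_add, coeff_C_mul, coeff_C_mul]; ring
      rw [e1]
      have h7 := norm_add_le (c k * P.coeff i) ((e k - 1) * Q.coeff i)
      rw [norm_mul, norm_mul] at h7
      have h8 : ‖c k‖ * ‖P.coeff i‖ ≤ η * M :=
        mul_le_mul h4.le (hM i).1 (norm_nonneg _) hη0.le
      have h9 : ‖e k - 1‖ * ‖Q.coeff i‖ ≤ η * M :=
        mul_le_mul h5.le (hM i).2 (norm_nonneg _) hη0.le
      linarith
    · rw [h6]
      exact (Pool.Agent.R239.Fat.mob_cont (by rw [h1]; exact one_ne_zero)).comp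
        (Pool.Agent.H790R3.RB.SP.sp_cont hx)
    · intro z hz
      rw [h6]
      exact Pool.Agent.R239.Fat.mob_sp hx h1 hz
  · have hrun : ∀ n, composition m n = Pool.Agent.R239.Fat.run m n := by
      intro n
      induction n with
      | zero => rfl
      | succ n ih =>
        show m n ∘ composition m n = m n ∘ Pool.Agent.R239.Fat.run m n
        rw [ih]
    rw [hrun]
    exact hGH

end Pool.Agent.Results.MP_8f2e1c_an.PeriodicPerturbations
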